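import Pool.Agent.W658.KZ.Stm
import Pool.Agent.W808.KZ.T_EXA

/-!
# Repaired step A: stability of the explored set (helper239)
-/

set_option autoImplicit false

namespace Pool.Agent.W239.KZR
open H974 H906.Cyl
open H12S (Dir hbE segD rimE H4 Crs Nr sqE)
open Pool.Agent.H160R2.ML (nm)
open Pool.Agent.H160R2.MU (Cel csq cpos prd shf BxS Bxs EP inSq PC Bad Cc)
open Pool.Agent.W801.OU
open Pool.Agent.W808.KZ
open Pool.Agent.W658.KZ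
open Pool.Agent.W808.KZ.TEXA

open Relation

theorem mem_ExA1 {N r : ℕ} {C : Cel} {n M : ℕ} {F : Finset Edg} {e : Edg} :
    e ∈ ExA1 N r C n M F ↔ e ∈ CE n M ∧ e ∈ EB N r ∧
      ∃ x, KA1 N r C n M F x ∧ (Cor (Zn n) 0 e x ∨ Cor (Zn n) 1 e x) := by
  classical
  simp only [ExA1, Finset.mem_filter]

theorem KA1_tp (h3 : S_z3) {N r : ℕ} {C : Cel} (hN : 16 ≤ N) (hC : AdmZ N C) {n : ℕ}
    (hn : n = prd N N * r) (hn0 : 0 < n)
    {M : ℕ} (F : Finset Edg) (q : ℤ) {x : ℤ × ℤ} (h : KA1 N r C n M F x) :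
    KA1 N r C n M F (Per.tp n q x) := by
  obtain ⟨y, h1, h2⟩ := h
  exact ⟨Per.tp n q y, Per.XE_tp h3 hN hC hn q h1, Per.RC_tp hn0 _ q h2⟩

theorem touch_ExA1 (h3 : S_z3) {N r : ℕ} {C : Cel} (hN : 16 ≤ N) (hC : AdmZ N C) {n M : ℕ}
    (hn : n = prd N N * r) (hn0 : 0 < n) {F : Finset Edg} {e : Edg} (he : red n e ∈ CE n M)
    (hb : red n e ∈ EB N r) {x : ℤ × ℤ} (hx : KA1 N r C n M F x)
    (hc : Cor (Zn n) 0 e x ∨ Cor (Zn n) 1 e x) : red n e ∈ ExA1 N r C n M F := by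
  rw [mem_ExA1]
  refine ⟨he, hb, Per.tp n (-((e.1 + e.2.1) / (2 * n))) x, KA1_tp h3 hN hC hn hn0 F _ hx, ?_⟩
  rw [Per.red_eq_te]
  exact hc.imp (Per.Cor_te1 _) (Per.Cor_te1 _)

theorem per_FA1_iff (h3 : S_z3) {N r : ℕ} {C : Cel} (hN : 16 ≤ N) (hC : AdmZ N C) {n M : ℕ}
    (hn : n = prd N N * r) (hn0 : 0 < n) (F G : Finset Edg) {e : Edg} {x : ℤ × ℤ}
    (hx : KA1 N r C n M F x) (hc : Cor (Zn n) 0 e x ∨ Cor (Zn n) 1 e x) :
    e ∈ per n (FA N r C n M F) ↔ e ∈ per n (FA N r C n M (mrg (ExA1 N r C n M F) F G)) := by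
  show red n e ∈ FA N r C n M F ↔ red n e ∈ FA N r C n M (mrg (ExA1 N r C n M F) F G)
  rw [mem_FA, mem_FA, mem_mrg]
  by_cases h1 : red n e ∈ CE n M
  · by_cases h2 : red n e ∈ EB N r
    · have := touch_ExA1 h3 hN hC hn hn0 h1 h2 hx hc
      tauto
    · tauto
  · tauto

theorem KA1_congr (h3 : S_z3) {N r : ℕ} {C : Cel} (hN : 16 ≤ N) (hC : AdmZ N C) {n M : ℕ}
    (hn : n = prd N N * r) (hn0 : 0 < n) (F G : Finset Edg) {y x : ℤ × ℤ}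
    (hy : KA1 N r C n M F y) :
    RC n (per n (FA N r C n M F)) y x ↔
      RC n (per n (FA N r C n M (mrg (ExA1 N r C n M F) F G))) y x := by
  refine eqv_agree (S := KA1 N r C n M F) ?_ ?_ hy
  · intro a b hab
    constructor
    · rintro ⟨z, h1, h2⟩
      exact ⟨z, h1, EqvGen.trans _ _ _ h2 (EqvGen.rel _ _ hab)⟩
    · rintro ⟨z, h1, h2⟩
      exact ⟨z, h1, EqvGen.trans _ _ _ h2 (EqvGen.symm _ _ (EqvGen.rel _ _ hab))⟩
  · intro a b hab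
    refine LZ_congr fun e _ h => ?_
    obtain ⟨c, hc, ha, hb⟩ := h
    rcases hab with h | h
    · exact per_FA1_iff h3 hN hC hn hn0 F G h (cor01 hc ha)
    · exact per_FA1_iff h3 hN hC hn hn0 F G h (cor01 hc hb)

theorem KA1_eq (h3 : S_z3) {N r : ℕ} {C : Cel} (hN : 16 ≤ N) (hC : AdmZ N C) {n M : ℕ}
    (hn : n = prd N N * r) (hn0 : 0 < n) (F G : Finset Edg) :
    KA1 N r C n M (mrg (ExA1 N r C n M F) F G) = KA1 N r C n M F := by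
  funext x
  refine propext ⟨?_, ?_⟩
  · rintro ⟨y, h1, h2⟩
    exact ⟨y, h1, (KA1_congr h3 hN hC hn hn0 F G ⟨y, h1, EqvGen.refl _⟩).2 h2⟩
  · rintro ⟨y, h1, h2⟩
    exact ⟨y, h1, (KA1_congr h3 hN hC hn hn0 F G ⟨y, h1, EqvGen.refl _⟩).1 h2⟩

theorem t_EXA1 : S_z3 → S_EXA1 := by
  intro h3 N r C hN hr hC n M hn hM F G hF hG
  have hn0 := n_pos hN hr hn
  refine ⟨?_, ?_, ?_⟩
  · ext e
    rw [mem_ExA1, mem_ExA1, KA1_eq h3 hN hC hn hn0 F G]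
  · intro x
    rw [KA1_eq h3 hN hC hn hn0 F G]
  · intro x y hx
    exact (KA1_congr h3 hN hC hn hn0 F G hx).symm

end Pool.Agent.W239.KZR
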