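import Pool.Agent.W239.KZR.EXA1

/-!
# Repaired step B: stability of the explored set (helper239)
-/

set_option autoImplicit false

namespace Pool.Agent.W239.KZR
open H974 H906.Cyl
open H12S (Dir hbE segD rimE H4 Crs Nr sqE)
open Pool.Agent.H160R2.ML (nm)
open Pool.Agent.H160R2.MU (Cel csq cpos prd shf BxS Bxs EP inSq PC Bad Cc)
open Pool.Agent.W801.OU
open Pool.Agent.W808.KZ
open Pool.Agent.W658.KZ
open Pool.Agent.W808.KZ.TEXA

open Relation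

theorem mem_FB {N r : ℕ} {C : Cel} {n M : ℕ} {F : Finset Edg} {e : Edg} :
    e ∈ FB N r C n M F ↔ e ∈ CE n M ∧ ((e ∈ EB N r ∨ e ∈ ET N r C) ∧ e ∈ F) := by
  classical
  simp only [FB, Finset.mem_filter]

theorem mem_ExB1 {c N r ρ : ℕ} {C : Cel} {n M : ℕ} {F : Finset Edg} {e : Edg} :
    e ∈ ExB1 c N r ρ C n M F ↔ e ∈ CE n M ∧ (e ∈ EB N r ∨ e ∈ ET N r C) ∧
    ((∃ x, KB1 c N r C n M F x ∧ (Cor (Zn n) 0 e x ∨ Cor (Zn n) 1 e x)) ∨
      (e ∈ Yb N r ρ C n ∧ (KL N r ρ C n F (src e) ∨ KL N r ρ C n F (tgt e)))) := by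
  classical
  simp only [ExB1, Finset.mem_filter]

/-! ## translations of vertices -/

/-- translation of vertices -/
def tv (n : ℕ) (q : ℤ) (v : Vtx) : Vtx := (v.1 + n * q, v.2 + n * q)

theorem src_te (n : ℕ) (q : ℤ) (e : Edg) : src (Per.te n q e) = tv n q (src e) := rfl

theorem tgt_te (n : ℕ) (q : ℤ) (e : Edg) : tgt (Per.te n q e) = tv n q (tgt e) := by
  obtain ⟨x, y, b⟩ := e
  cases b
  · show (x + n * q, y + n * q + 1) = (x + n * q, y + 1 + n * q)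
    exact Prod.ext rfl (by simp only; ring)
  · show (x + n * q + 1, y + n * q) = (x + 1 + n * q, y + n * q)
    exact Prod.ext (by simp only; ring) rfl

theorem NrD_te1 (h3 : S_z3) {N r ρ : ℕ} {C : Cel} (hN : 16 ≤ N) (hC : AdmZ N C) {n : ℕ}
    (hn : n = prd N N * r) (q : ℤ) {e : Edg} (h : NrD N r ρ C e) : NrD N r ρ C (Per.te n q e) := by
  obtain ⟨e', h1, h2, h4, h5⟩ := h
  refine ⟨Per.te n q e', fun h => h1 ((Per.EB_te h3 hN hC hn q e').1 h),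
    fun h => h2 ((Per.ET_te h3 hN hC hn q e').1 h), ?_, ?_⟩
  · have : (Per.te n q e).1 - (Per.te n q e').1 = e.1 - e'.1 := by unfold Per.te; ring
    rw [this]; exact h4
  · have : (Per.te n q e).2.1 - (Per.te n q e').2.1 = e.2.1 - e'.2.1 := by unfold Per.te; ring
    rw [this]; exact h5

theorem Exi_te1 {N r ρ n : ℕ} (q : ℤ) {e : Edg} (h : Exi N r ρ n e) :
    Exi N r ρ n (Per.te n q e) := by
  obtain ⟨s, h1, h2⟩ := h
  refine ⟨s + q, ?_, ?_⟩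
  · have : (Per.te n q e).1 + N * r - n * (s + q) = e.1 + N * r - n * s := by unfold Per.te; ring
    rw [this]; exact h1
  · have : (Per.te n q e).2.1 - N * r - n * (s + q) = e.2.1 - N * r - n * s := by
      unfold Per.te; ring
    rw [this]; exact h2

theorem Yb_te1 (h3 : S_z3) {N r ρ : ℕ} {C : Cel} (hN : 16 ≤ N) (hC : AdmZ N C) {n : ℕ}
    (hn : n = prd N N * r) (q : ℤ) {e : Edg} (h : e ∈ Yb N r ρ C n) :
    Per.te n q e ∈ Yb N r ρ C n := by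
  obtain ⟨h1, h2, h4⟩ := h
  refine ⟨h1.imp (Per.EB_te h3 hN hC hn q e).2 (Per.ET_te h3 hN hC hn q e).2,
    NrD_te1 h3 hN hC hn q h2, fun h => h4 ?_⟩
  have := Exi_te1 (-q) h
  rwa [Per.te_te, neg_add_cancel, Per.te_zero] at this

theorem Yb_te (h3 : S_z3) {N r ρ : ℕ} {C : Cel} (hN : 16 ≤ N) (hC : AdmZ N C) {n : ℕ}
    (hn : n = prd N N * r) (q : ℤ) {e : Edg} :
    Per.te n q e ∈ Yb N r ρ C n ↔ e ∈ Yb N r ρ C n := by
  refine ⟨fun h => ?_, Yb_te1 h3 hN hC hn q⟩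
  have := Yb_te1 h3 hN hC hn (-q) h
  rwa [Per.te_te, neg_add_cancel, Per.te_zero] at this

theorem Reach_tv {n : ℕ} {A : Set Edg} (hA : ∀ q e, e ∈ A → Per.te n q e ∈ A) (q : ℤ) {u v : Vtx}
    (h : Reach A u v) : Reach A (tv n q u) (tv n q v) := by
  induction h with
  | refl => exact Relation.ReflTransGen.refl
  | tail _ hs ih =>
    refine ih.tail ?_
    obtain ⟨e, he, h⟩ := hs
    refine ⟨Per.te n q e, hA q e he, ?_⟩
    rw [src_te, tgt_te]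
    rcases h with ⟨h1, h2⟩ | ⟨h1, h2⟩
    · left; rw [h1, h2]; exact ⟨rfl, rfl⟩
    · right; rw [h1, h2]; exact ⟨rfl, rfl⟩

theorem KL_tv (h3 : S_z3) {N r ρ : ℕ} {C : Cel} (hN : 16 ≤ N) (hC : AdmZ N C) {n : ℕ}
    (hn : n = prd N N * r) (hn0 : 0 < n) (F : Finset Edg) (q : ℤ) {v : Vtx}
    (h : KL N r ρ C n F v) : KL N r ρ C n F (tv n q v) := by
  obtain ⟨w, e, h1, h2, h4, h5⟩ := h
  refine ⟨tv n q w, Per.te n q e, h1.imp (Per.EB_te h3 hN hC hn q e).2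
    (Per.ET_te h3 hN hC hn q e).2, fun h => h2 ((Yb_te h3 hN hC hn q).1 h), ?_, ?_⟩
  · rw [src_te, tgt_te]
    rcases h4 with h4 | h4
    · left; rw [h4]
    · right; rw [h4]
  · refine Reach_tv ?_ q h5
    rintro q e ⟨ha, hb⟩
    exact ⟨(Per.per_te hn0 F q e).2 ha, Yb_te1 h3 hN hC hn q hb⟩

theorem KB1_tp {c N r : ℕ} {C : Cel} {n : ℕ} (hn0 : 0 < n) {M : ℕ} (F : Finset Edg) (q : ℤ)
    {x : ℤ × ℤ} (h : KB1 c N r C n M F x) : KB1 c N r C n M F (Per.tp n q x) := by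
  obtain ⟨s, h⟩ := h
  refine ⟨s + q, ?_⟩
  rw [← Per.tp_scz]
  exact Per.RC_tp hn0 _ q h

/-! ## the clusters of the sectors -/

theorem touch_B1 (h3 : S_z3) {c N r : ℕ} (ρ : ℕ) {C : Cel} (hN : 16 ≤ N) (hC : AdmZ N C) {n M : ℕ}
    (hn : n = prd N N * r) (hn0 : 0 < n) {F : Finset Edg} {e : Edg} (he : red n e ∈ CE n M)
    (hb : red n e ∈ EB N r ∨ red n e ∈ ET N r C) {x : ℤ × ℤ} (hx : KB1 c N r C n M F x)
    (hc : Cor (Zn n) 0 e x ∨ Cor (Zn n) 1 e x) : red n e ∈ ExB1 c N r ρ C n M F := by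
  rw [mem_ExB1]
  refine ⟨he, hb, Or.inl ⟨Per.tp n (-((e.1 + e.2.1) / (2 * n))) x, KB1_tp hn0 F _ hx, ?_⟩⟩
  rw [Per.red_eq_te]
  exact hc.imp (Per.Cor_te1 _) (Per.Cor_te1 _)

theorem per_FB1_iff (h3 : S_z3) {c N r ρ : ℕ} {C : Cel} (hN : 16 ≤ N) (hC : AdmZ N C) {n M : ℕ}
    (hn : n = prd N N * r) (hn0 : 0 < n) (F G : Finset Edg) {e : Edg} {x : ℤ × ℤ}
    (hx : KB1 c N r C n M F x) (hc : Cor (Zn n) 0 e x ∨ Cor (Zn n) 1 e x) :
    e ∈ per n (FB N r C n M F) ↔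
      e ∈ per n (FB N r C n M (mrg (ExB1 c N r ρ C n M F) F G)) := by
  show red n e ∈ FB N r C n M F ↔ red n e ∈ FB N r C n M (mrg (ExB1 c N r ρ C n M F) F G)
  rw [mem_FB, mem_FB, mem_mrg]
  by_cases h1 : red n e ∈ CE n M
  · by_cases h2 : red n e ∈ EB N r ∨ red n e ∈ ET N r C
    · have := touch_B1 h3 ρ hN hC hn hn0 h1 h2 hx hc
      tauto
    · tauto
  · tauto

theorem KB1_congr (h3 : S_z3) {c N r : ℕ} (ρ : ℕ) {C : Cel} (hN : 16 ≤ N) (hC : AdmZ N C)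
    {n M : ℕ} (hn : n = prd N N * r) (hn0 : 0 < n) (F G : Finset Edg) {y x : ℤ × ℤ}
    (hy : KB1 c N r C n M F y) :
    RC n (per n (FB N r C n M F)) y x ↔
      RC n (per n (FB N r C n M (mrg (ExB1 c N r ρ C n M F) F G))) y x := by
  refine eqv_agree (S := KB1 c N r C n M F) ?_ ?_ hy
  · intro a b hab
    constructor
    · rintro ⟨s, h2⟩
      exact ⟨s, EqvGen.trans _ _ _ h2 (EqvGen.rel _ _ hab)⟩
    · rintro ⟨s, h2⟩
      exact ⟨s, EqvGen.trans _ _ _ h2 (EqvGen.symm _ _ (EqvGen.rel _ _ hab))⟩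
  · intro a b hab
    refine LZ_congr fun e _ h => ?_
    obtain ⟨c, hc, ha, hb⟩ := h
    rcases hab with h | h
    · exact per_FB1_iff h3 hN hC hn hn0 F G h (cor01 hc ha)
    · exact per_FB1_iff h3 hN hC hn hn0 F G h (cor01 hc hb)

theorem KB1_eq (h3 : S_z3) {c N r : ℕ} (ρ : ℕ) {C : Cel} (hN : 16 ≤ N) (hC : AdmZ N C)
    {n M : ℕ} (hn : n = prd N N * r) (hn0 : 0 < n) (F G : Finset Edg) :
    KB1 c N r C n M (mrg (ExB1 c N r ρ C n M F) F G) = KB1 c N r C n M F := by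
  funext x
  refine propext ⟨?_, ?_⟩
  · rintro ⟨s, h2⟩
    exact ⟨s, (KB1_congr h3 ρ hN hC hn hn0 F G ⟨s, EqvGen.refl _⟩).2 h2⟩
  · rintro ⟨s, h2⟩
    exact ⟨s, (KB1_congr h3 ρ hN hC hn hn0 F G ⟨s, EqvGen.refl _⟩).1 h2⟩

/-! ## the local clusters -/

theorem Yb_R {N r ρ : ℕ} {C : Cel} {n : ℕ} {e : Edg} (h : e ∈ Yb N r ρ C n) :
    e ∈ EB N r ∨ e ∈ ET N r C := h.1

theorem per_KL_iff (h3 : S_z3) (c : ℕ) {N r ρ : ℕ} {C : Cel} (hN : 16 ≤ N) (hC : AdmZ N C)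
    {n M : ℕ} (hn : n = prd N N * r) (hn0 : 0 < n) {F G : Finset Edg} (hF : F ⊆ CE n M)
    (hG : G ⊆ CE n M) {e : Edg} (hY : e ∈ Yb N r ρ C n)
    (hK : KL N r ρ C n F (src e) ∨ KL N r ρ C n F (tgt e)) :
    e ∈ per n F ↔ e ∈ per n (mrg (ExB1 c N r ρ C n M F) F G) := by
  show red n e ∈ F ↔ red n e ∈ mrg (ExB1 c N r ρ C n M F) F G
  rw [mem_mrg]
  by_cases h1 : red n e ∈ CE n M
  · have h5 : red n e ∈ ExB1 c N r ρ C n M F := by
      rw [mem_ExB1]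
      have h6 : red n e ∈ Yb N r ρ C n := by
        rw [Per.red_eq_te]
        exact Yb_te1 h3 hN hC hn _ hY
      refine ⟨h1, Yb_R h6, Or.inr ⟨h6, ?_⟩⟩
      rw [Per.red_eq_te, src_te, tgt_te]
      exact hK.imp (KL_tv h3 hN hC hn hn0 F _) (KL_tv h3 hN hC hn hn0 F _)
    tauto
  · have h2 : red n e ∉ F := fun h => h1 (hF h)
    have h4 : red n e ∉ G := fun h => h1 (hG h)
    tauto

theorem KL_eq (h3 : S_z3) (c : ℕ) {N r ρ : ℕ} {C : Cel} (hN : 16 ≤ N) (hC : AdmZ N C)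
    {n M : ℕ} (hn : n = prd N N * r) (hn0 : 0 < n) {F G : Finset Edg} (hF : F ⊆ CE n M)
    (hG : G ⊆ CE n M) (v : Vtx) :
    KL N r ρ C n (mrg (ExB1 c N r ρ C n M F) F G) v ↔ KL N r ρ C n F v := by
  constructor
  · rintro ⟨w, e0, h1, h2, h4, h5⟩
    have key : ∀ v, Reach (per n (mrg (ExB1 c N r ρ C n M F) F G) ∩ Yb N r ρ C n) w v →
        Reach (per n F ∩ Yb N r ρ C n) w v := by
      intro v h
      induction h with
      | refl => exact Relation.ReflTransGen.refl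
      | @tail b d _ hs ih =>
        refine ih.tail ?_
        obtain ⟨e, ⟨he1, he2⟩, h⟩ := hs
        have hb : KL N r ρ C n F b := ⟨w, e0, h1, h2, h4, ih⟩
        have hK : KL N r ρ C n F (src e) ∨ KL N r ρ C n F (tgt e) := by
          rcases h with ⟨ha, _⟩ | ⟨_, ha⟩
          · left; rw [ha]; exact hb
          · right; rw [ha]; exact hb
        exact ⟨e, ⟨(per_KL_iff h3 c hN hC hn hn0 hF hG he2 hK).2 he1, he2⟩, h⟩
    exact ⟨w, e0, h1, h2, h4, key v h5⟩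
  · rintro ⟨w, e0, h1, h2, h4, h5⟩
    have key : ∀ v, Reach (per n F ∩ Yb N r ρ C n) w v →
        Reach (per n (mrg (ExB1 c N r ρ C n M F) F G) ∩ Yb N r ρ C n) w v := by
      intro v h
      induction h with
      | refl => exact Relation.ReflTransGen.refl
      | @tail b d hbr hs ih =>
        refine ih.tail ?_
        obtain ⟨e, ⟨he1, he2⟩, h⟩ := hs
        have hb : KL N r ρ C n F b := ⟨w, e0, h1, h2, h4, hbr⟩
        have hK : KL N r ρ C n F (src e) ∨ KL N r ρ C n F (tgt e) := by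
          rcases h with ⟨ha, _⟩ | ⟨_, ha⟩
          · left; rw [ha]; exact hb
          · right; rw [ha]; exact hb
        exact ⟨e, ⟨(per_KL_iff h3 c hN hC hn hn0 hF hG he2 hK).1 he1, he2⟩, h⟩
    exact ⟨w, e0, h1, h2, h4, key v h5⟩

theorem t_EXB1 : S_z3 → S_EXB1 := by
  intro h3 c N r ρ C hN hr hρ hρr hC n M hn hM F G hF hG
  have hn0 := n_pos hN hr hn
  have hKB := KB1_eq h3 (c := c) ρ hN hC hn hn0 F G (M := M)
  have hKL := KL_eq h3 c (ρ := ρ) hN hC hn hn0 hF hG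
  refine ⟨?_, hKL, ?_⟩
  · ext e
    rw [mem_ExB1, mem_ExB1, hKB, hKL, hKL]
  · intro s x
    exact (KB1_congr h3 ρ hN hC hn hn0 F G ⟨s, EqvGen.refl _⟩).symm

end Pool.Agent.W239.KZR
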